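import Pool.Agent.Helper17.SV.Stmts

set_option autoImplicit false

open Finset

namespace Pool.Agent.Helper17.SV

open Pool.Agent.Helper17.SO

theorem pl_geom (l : ℤ) (hl : Odd l) (v : ℕ) : Even (∑ i ∈ Finset.range v, l ^ i - v) := by
  induction v with
  | zero => simp
  | succ v ih =>
    rw [Finset.sum_range_succ]
    push_cast
    have h1 : Even (l ^ v - 1) := Odd.sub_odd (hl.pow) odd_one
    have h2 : ∑ i ∈ Finset.range v, l ^ i + l ^ v - ((v : ℤ) + 1) =
      (∑ i ∈ Finset.range v, l ^ i - v) + (l ^ v - 1) := by ring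
    rw [h2]
    exact ih.add h1

theorem pl_even {ι : Type} (s : Finset ι) (f : ι → ℤ) (h : ∀ i ∈ s, Even (f i)) :
    Even (∑ i ∈ s, f i) := by
  classical
  induction s using Finset.induction_on with
  | empty => simp
  | insert a s ha ih =>
    rw [Finset.sum_insert ha]
    exact (h a (Finset.mem_insert_self _ _)).add
      (ih (fun i hi => h i (Finset.mem_insert_of_mem hi)))

theorem st_PL (h1 : ST_PB) : ST_PL := by
  intro X _ P l hl hl2 hP hfix
  classical
  have : Fact l.Prime := ⟨hl⟩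
  have hp : IsPGroup l P := by
    intro g
    obtain ⟨r, hr⟩ := hP g.1 g.2
    exact ⟨r, Subtype.ext (by simpa using hr)⟩
  have hB := h1 P X l hl hl2 hp (fun g => by
    have := hfix g.1 g.2
    exact this)
  have hlodd : Odd (l : ℤ) := by
    have := hl.odd_of_ne_two hl2
    exact_mod_cast this
  have : Fintype (MulAction.orbitRel.Quotient P X) := Fintype.ofFinite _
  set π : X → MulAction.orbitRel.Quotient P X := fun x => Quotient.mk _ x with hπ
  have hrel : ∀ x y : X, (∃ g ∈ P, g x = y) ↔ π y = π x := by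
    intro x y
    have h2 : π y = π x ↔ y ∈ MulAction.orbit P x := by
      rw [← MulAction.orbitRel_apply]
      exact Quotient.eq
    rw [h2]
    constructor
    · rintro ⟨g, hg, hgx⟩
      exact ⟨⟨g, hg⟩, hgx⟩
    · rintro ⟨g, hgx⟩
      exact ⟨g.1, g.2, hgx⟩
  have horb : ∀ x : X, orb P x = (univ.filter (fun y => π y = π x)).card := by
    intro x
    unfold orb
    rw [Nat.card_eq_fintype_card, Fintype.card_subtype]
    congr 1
    ext y
    simp only [Finset.mem_filter, Finset.mem_univ, true_and]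
    exact hrel x y
  have hpow : ∀ x : X, ∃ n : ℕ, orb P x = l ^ n := by
    intro x
    obtain ⟨n, hn⟩ := hp.card_orbit x
    refine ⟨n, ?_⟩
    rw [← hn]
    unfold orb
    apply Nat.card_congr
    refine Equiv.subtypeEquivRight (fun y => ?_)
    constructor
    · rintro ⟨g, hg, hgx⟩
      exact ⟨⟨g, hg⟩, hgx⟩
    · rintro ⟨g, hgx⟩
      exact ⟨g.1, g.2, hgx⟩
  have hq : ∀ q : MulAction.orbitRel.Quotient P X, ∃ n : ℕ,
      (univ.filter (fun y => π y = q)).card = l ^ n := by
    intro q
    obtain ⟨x, rfl⟩ := Quotient.exists_rep q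
    obtain ⟨n, hn⟩ := hpow x
    exact ⟨n, by rw [← hn, horb x]⟩
  choose V hV using hq
  have hval : ∀ x : X, padicValNat l (orb P x) = V (π x) := by
    intro x
    rw [horb x, hV (π x), padicValNat.prime_pow]
  have hsum : ∀ F : MulAction.orbitRel.Quotient P X → ℤ,
      ∑ x : X, F (π x) = ∑ q, (l : ℤ) ^ V q * F q := by
    intro F
    rw [← Finset.sum_fiberwise (s := (univ : Finset X)) (g := π)]
    refine Finset.sum_congr rfl (fun q _ => ?_)
    rw [Finset.sum_congr rfl (g := fun _ => F q) (fun x hx => by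
      rw [(Finset.mem_filter.mp hx).2])]
    rw [Finset.sum_const, hV q, nsmul_eq_mul]
    push_cast
    ring
  have hX : (Nat.card X : ℤ) = ∑ q, (l : ℤ) ^ V q := by
    have := hsum (fun _ => 1)
    simp only [Finset.sum_const, Finset.card_univ, nsmul_eq_mul, mul_one] at this
    rw [Nat.card_eq_fintype_card]
    exact this
  have hO : (Nat.card (MulAction.orbitRel.Quotient P X) : ℤ) =
      ∑ _q : MulAction.orbitRel.Quotient P X, (1 : ℤ) := by
    simp [Nat.card_eq_fintype_card]
  have hdvd : (2 * ((l : ℤ) - 1)) ∣ (Nat.card X : ℤ) - Nat.card (MulAction.orbitRel.Quotient P X) := by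
    have h2 := (Nat.modEq_iff_dvd.mp hB.symm)
    have h3 : ((2 * (l - 1) : ℕ) : ℤ) = 2 * ((l : ℤ) - 1) := by
      rw [Nat.cast_mul, Nat.cast_sub hl.one_lt.le]
      simp
    rw [h3] at h2
    exact h2
  have hdiff : (Nat.card X : ℤ) - Nat.card (MulAction.orbitRel.Quotient P X) =
      ((l : ℤ) - 1) * ∑ q, ∑ i ∈ Finset.range (V q), (l : ℤ) ^ i := by
    rw [hX, hO, ← Finset.sum_sub_distrib, Finset.mul_sum]
    refine Finset.sum_congr rfl (fun q _ => ?_)
    rw [mul_geom_sum]
  have hl1 : ((l : ℤ) - 1) ≠ 0 := by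
    have := hl.one_lt
    omega
  have h2S : Even (∑ q, ∑ i ∈ Finset.range (V q), (l : ℤ) ^ i) := by
    rw [hdiff, mul_comm 2 ((l : ℤ) - 1)] at hdvd
    have := (mul_dvd_mul_iff_left hl1).mp hdvd
    exact even_iff_two_dvd.mpr this
  have hVe : Even (∑ q, (V q : ℤ)) := by
    have h3 : Even (∑ q, (∑ i ∈ Finset.range (V q), (l : ℤ) ^ i - V q)) :=
      pl_even _ _ (fun q _ => pl_geom l hlodd (V q))
    rw [Finset.sum_sub_distrib] at h3
    have h4 := h2S.sub h3
    simpa using h4
  have hfin : Even ((∑ x : X, padicValNat l (orb P x) : ℕ) : ℤ) := by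
    rw [Nat.cast_sum]
    have h5 : ∑ x : X, (padicValNat l (orb P x) : ℤ) = ∑ q, (l : ℤ) ^ V q * (V q : ℤ) := by
      rw [← hsum (fun q => (V q : ℤ))]
      exact Finset.sum_congr rfl (fun x _ => by rw [hval x])
    rw [h5]
    have h6 : Even (∑ q, ((l : ℤ) ^ V q * (V q : ℤ) - V q)) :=
      pl_even _ _ (fun q _ => by
        have h7 : (l : ℤ) ^ V q * (V q : ℤ) - V q = ((l : ℤ) ^ V q - 1) * V q := by ring
        rw [h7]
        exact (Odd.sub_odd (hlodd.pow) odd_one).mul_right _)
    rw [Finset.sum_sub_distrib] at h6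
    have h8 := h6.add hVe
    simpa using h8
  exact_mod_cast hfin

end Pool.Agent.Helper17.SV
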